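import Pool.Agent.Helper15.WA.LocDefs
import Pool.Agent.Helper10.GWA.LB

/-!
# Reduction at the places not above 2: neighbourhoods of the 2-torsion points
-/

namespace GWA

variable {K : Type} [NormedField K] [Algebra GaussianInt K] [NeZero (2 : K)] [DecidableEq K]
  {π : GaussianInt}

omit [NeZero (2 : K)] [DecidableEq K] in
private theorem disc' (h : LocHyp K π) {x : K} (hx : ‖x‖ < 1) :
    ‖x‖ ≤ ‖algebraMap GaussianInt K π‖ := by
  by_cases hx0 : x = 0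
  · rw [hx0, norm_zero]; exact norm_nonneg _
  obtain ⟨n, hn⟩ := h.unif x hx0
  rw [hn] at hx ⊢
  have hn' : 0 < n := by
    by_contra hc
    push Not at hc
    have h1 : 1 ≤ ‖algebraMap GaussianInt K π‖ ^ n :=
      one_le_zpow_of_nonpos₀ h.norm_pi_pos h.norm_pi.le hc
    linarith
  calc ‖algebraMap GaussianInt K π‖ ^ n ≤ ‖algebraMap GaussianInt K π‖ ^ (1 : ℤ) :=
        zpow_le_zpow_right_of_le_one₀ h.norm_pi_pos h.norm_pi.le (by omega)
    _ = _ := zpow_one _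

omit [NeZero (2 : K)] [DecidableEq K] in
theorem LocHyp.not_mem_nb_iff (h : LocHyp K π) {d : K} (hd : d ≠ 0) {P : E d} :
    P ∉ nb π d 0 ↔ P ≠ 0 ∧ ‖nx P‖ ≤ 1 := by
  rw [h.mem_nb_zero_iff hd]
  push Not
  rfl

omit [NeZero (2 : K)] [DecidableEq K] in
private theorem not_nb' (h : LocHyp K π) {d : K} (hd : d ≠ 0) {P : E d} (hP : P ∉ nb π d 0) :
    P ≠ 0 ∧ ‖nx P‖ ≤ 1 := by
  rw [h.mem_nb_zero_iff hd] at hP
  push Not at hP
  exact hP

theorem LocHyp.near_T_iff (h : LocHyp K π) (hodd : ¬ π ∣ 2) {d : K} (hd : d ≠ 0) {P : E d}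
    (hP : P ≠ 0) (n : ℕ) : P - T hd ∈ nb π d n ↔
      ‖nx P - 1‖ ≤ ‖algebraMap GaussianInt K π‖ ^ (2 * n + 1) := by
  have hp0 := h.norm_pi_pos
  have hlt : ‖algebraMap GaussianInt K π‖ ^ (2 * n + 1) < 1 :=
    pow_lt_one₀ hp0.le h.norm_pi (by omega)
  have hpp : 0 < ‖algebraMap GaussianInt K π‖ ^ (2 * n + 1) := pow_pos hp0 _
  have h2 := h.norm_two hodd
  by_cases hx : nx P = 1
  · have hPT : P = T hd := by
      rcases (nx_eq_iff hd hP (T_ne hd)).1 (by rw [hx, nx_T]) with h1 | h1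
      · exact h1
      · rw [h1, neg_T]
    have e1 : P - T hd = 0 := by rw [hPT]; exact sub_self _
    rw [e1, hx, sub_self, norm_zero]
    exact ⟨fun _ => hpp.le, fun _ => zero_mem_nbh _ _ _⟩
  · obtain ⟨hne, hnx⟩ := nx_add_T hd hP hx
    have e1 : P - T hd = P + T hd := by rw [sub_eq_add_neg, neg_T]
    rw [e1, mem_nbh_iff hd, or_iff_right hne, hnx, norm_div, inv_pow]
    have hx1 : 0 < ‖nx P - 1‖ := norm_pos_iff.2 (sub_ne_zero.2 hx)
    rw [le_div_iff₀ hx1, inv_mul_le_iff₀ hpp]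
    have e2 : nx P + 1 = 2 + (nx P - 1) := by ring
    have key : ‖nx P - 1‖ < 1 → ‖nx P + 1‖ = 1 := by
      intro h1
      rw [e2, h.norm_sum_eq (by rwa [h2]), h2]
    constructor
    · intro h1
      by_cases h3 : ‖nx P - 1‖ < 1
      · rw [key h3, mul_one] at h1
        exact h1
      · exfalso
        push Not at h3
        have h4 : ‖nx P + 1‖ ≤ ‖nx P - 1‖ := by
          rw [e2]
          refine (h.ultra _ _).trans ?_
          rw [h2]
          exact max_le h3 le_rfl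
        nlinarith [norm_nonneg (nx P + 1)]
    · intro h1
      rw [key (lt_of_le_of_lt h1 hlt), mul_one]
      exact h1

theorem LocHyp.near_T₀_iff (h : LocHyp K π) {d : K} (hd : d ≠ 0) {P : E d}
    (hP : P ≠ 0) (n : ℕ) : P - T₀ hd ∈ nb π d n ↔
      ‖nx P‖ ≤ ‖algebraMap GaussianInt K π‖ ^ (2 * n + 1) := by
  have hp0 := h.norm_pi_pos
  have hpp : 0 < ‖algebraMap GaussianInt K π‖ ^ (2 * n + 1) := pow_pos hp0 _
  by_cases hx : nx P = 0
  · have hPT : P = T₀ hd := by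
      rcases (nx_eq_iff hd hP (T₀_ne hd)).1 (by rw [hx, nx_T₀]) with h1 | h1
      · exact h1
      · rw [h1, neg_T₀]
    have e1 : P - T₀ hd = 0 := by rw [hPT]; exact sub_self _
    rw [e1, hx, norm_zero]
    exact ⟨fun _ => hpp.le, fun _ => zero_mem_nbh _ _ _⟩
  · obtain ⟨hne, hnx⟩ := nx_add_T₀ hd hP hx
    have e1 : P - T₀ hd = P + T₀ hd := by rw [sub_eq_add_neg, neg_T₀]
    have hx1 : 0 < ‖nx P‖ := norm_pos_iff.2 hx
    rw [e1, mem_nbh_iff hd, or_iff_right hne, hnx, norm_div, norm_neg, norm_one, inv_pow,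
      le_div_iff₀ hx1, inv_mul_le_iff₀ hpp, mul_one]

theorem LocHyp.near_giT_iff (h : LocHyp K π) (hodd : ¬ π ∣ 2) (d : Kˣ) {P : E (d : K)}
    (hP : P ≠ 0) (n : ℕ) : P - gi • T d.ne_zero ∈ nb π (d : K) n ↔
      ‖nx P + 1‖ ≤ ‖algebraMap GaussianInt K π‖ ^ (2 * n + 1) := by
  have hd := d.ne_zero
  have hgi : gi * gi = -1 := by decide
  have key : ∀ R : E (d : K), gi • R ∈ nb π (d : K) n ↔ R ∈ nb π (d : K) n := by
    intro R
    constructor
    · intro h1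
      have h2 := h.nb_smul d n (-gi) h1
      rw [smul_smul] at h2
      have h3 : -gi * gi = 1 := by rw [neg_mul, hgi, neg_neg]
      rwa [h3, one_smul] at h2
    · intro h1
      exact h.nb_smul d n gi h1
  rw [← key]
  have e1 : gi • (P - gi • T d.ne_zero) = gi • P - T d.ne_zero := by
    rw [smul_sub, smul_smul, hgi, neg_smul, one_smul]
    rw [neg_T]
  rw [e1, h.near_T_iff hodd hd (gi_smul_ne d hP) n, nx_gi_smul]
  have e2 : - nx P - 1 = -(nx P + 1) := by ring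
  rw [e2, norm_neg]

theorem LocHyp.res_conv (h : LocHyp K π) (hodd : ¬ π ∣ 2) {d : K} (hd : d ≠ 0) {P Q : E d}
    (hP : P ∉ nb π d 0) (hPQ : Q - P ∈ nb π d 0) :
    Q ≠ 0 ∧ ‖nx P‖ ≤ 1 ∧ ‖nx Q‖ ≤ 1 ∧ ‖nx Q - nx P‖ < 1 := by
  have _ := hodd
  obtain ⟨hP0, hx⟩ := not_nb' h hd hP
  set η := Q - P with hη
  have hQ : Q = P + η := by rw [hη]; exact (add_sub_cancel P Q).symm
  have hQn : Q ∉ nb π d 0 := by
    intro hc
    apply hP
    have e : P = Q + -η := by rw [hQ]; exact (add_neg_cancel_right P η).symm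
    rw [e]
    exact h.nb_add hd 0 hc (neg_mem_nbh hPQ)
  obtain ⟨hQ0, hxQ⟩ := not_nb' h hd hQn
  refine ⟨hQ0, hx, hxQ, ?_⟩
  by_cases hη0 : η = 0
  · rw [hQ, hη0, add_zero, sub_self, norm_zero]; exact one_pos
  have ha : 1 < ‖nx η‖ := by
    rcases (h.mem_nb_zero_iff hd).1 hPQ with h1 | h1
    · exact absurd h1 hη0
    · exact h1
  have hne : nx P ≠ nx η := by
    intro hc
    rw [hc] at hx
    linarith
  obtain ⟨-, hch⟩ := nx_add hd hP0 hη0 hne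
  rw [← hQ] at hch
  set x := nx P with hxd
  set a := nx η with had
  set w := yc P * yc η / d ^ 3 with hw
  have hw2 : w ^ 2 = ff x * ff a := by
    rw [hw, div_pow, mul_pow, yc_sq_nx hd, yc_sq_nx hd]
    field_simp
    rfl
  have hden : ‖x - a‖ = ‖a‖ := by
    have : x - a = -a + x := by ring
    rw [this, h.norm_sum_eq (by rw [norm_neg]; exact lt_of_le_of_lt hx ha), norm_neg]
  have hfx : ‖ff x‖ ≤ 1 := by
    unfold ff
    refine (h.norm_sub_le _ _).trans (max_le ?_ hx)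
    rw [norm_pow]
    exact pow_le_one₀ (norm_nonneg _) hx
  have hfa : ‖ff a‖ ≤ ‖a‖ ^ 3 := by
    unfold ff
    refine (h.norm_sub_le _ _).trans (max_le ?_ ?_)
    · rw [norm_pow]
    · exact le_self_pow₀ ha.le (by norm_num)
  have hwn : ‖w‖ ^ 2 ≤ ‖a‖ ^ 3 := by
    rw [← norm_pow, hw2, norm_mul]
    calc ‖ff x‖ * ‖ff a‖ ≤ 1 * ‖a‖ ^ 3 := by gcongr
      _ = _ := one_mul _
  have hwlt : ‖w‖ < ‖a‖ ^ 2 := by
    by_contra hc
    push Not at hc
    have h1 : (‖a‖ ^ 2) ^ 2 ≤ ‖w‖ ^ 2 := by gcongr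
    have h2 : ‖a‖ ^ 3 < ‖a‖ ^ 4 := pow_lt_pow_right₀ ha (by norm_num)
    nlinarith
  have halt : ‖a‖ < ‖a‖ ^ 2 := by nlinarith
  have h1lt : 1 < ‖a‖ ^ 2 := by nlinarith
  have hnum : (nx Q - x) * (x - a) ^ 2 = 3 * x ^ 2 * a - x - a - x ^ 3 - 2 * w := by
    linear_combination hch
  have hnn : ‖3 * x ^ 2 * a - x - a - x ^ 3 - 2 * w‖ < ‖a‖ ^ 2 := by
    have n3 : ‖(3 : K)‖ ≤ 1 := h.norm_ofNat_le 3
    have n2 : ‖(2 : K)‖ ≤ 1 := h.norm_ofNat_le 2
    have hx2 : ‖x‖ ^ 2 ≤ 1 := pow_le_one₀ (norm_nonneg _) hx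
    have hx3 : ‖x‖ ^ 3 ≤ 1 := pow_le_one₀ (norm_nonneg _) hx
    refine lt_of_le_of_lt (h.norm_sub_le _ _) (max_lt ?_ ?_)
    · refine lt_of_le_of_lt (h.norm_sub_le _ _) (max_lt ?_ ?_)
      · refine lt_of_le_of_lt (h.norm_sub_le _ _) (max_lt ?_ halt)
        refine lt_of_le_of_lt (h.norm_sub_le _ _) (max_lt ?_ (lt_of_le_of_lt hx h1lt))
        rw [norm_mul, norm_mul, norm_pow]
        calc ‖(3 : K)‖ * ‖x‖ ^ 2 * ‖a‖ ≤ 1 * 1 * ‖a‖ := by gcongr
          _ = ‖a‖ := by ring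
          _ < _ := halt
      · rw [norm_pow]
        exact lt_of_le_of_lt hx3 h1lt
    · rw [norm_mul]
      calc ‖(2 : K)‖ * ‖w‖ ≤ 1 * ‖w‖ := by gcongr
        _ = ‖w‖ := one_mul _
        _ < _ := hwlt
  rw [← hnum, norm_mul, norm_pow, hden] at hnn
  by_contra hc
  push Not at hc
  have : 1 * ‖a‖ ^ 2 ≤ ‖nx Q - x‖ * ‖a‖ ^ 2 := by gcongr
  linarith

/-- away from the nodes `d` is a unit times a square -/
theorem LocHyp.node_or (h : LocHyp K π) (hodd : ¬ π ∣ 2) (d : Kˣ) (P : E (d : K)) :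
    (∃ κ : GaussianInt, P - κ • T d.ne_zero ∈ nb π (d : K) 0) ∨
      (P ≠ 0 ∧ ‖nx P‖ = 1 ∧ ‖nx P - 1‖ = 1 ∧ ‖nx P + 1‖ = 1 ∧
        ∃ n : ℤ, ‖(d : K)‖ = ‖algebraMap GaussianInt K π‖ ^ (2 * n)) := by
  have hd := d.ne_zero
  by_cases hP : P ∈ nb π (d : K) 0
  · left
    refine ⟨0, ?_⟩
    rw [zero_smul, sub_zero]
    exact hP
  obtain ⟨hP0, hx⟩ := not_nb' h hd hP
  by_cases h0 : ‖nx P‖ < 1
  · left
    refine ⟨lam, ?_⟩
    rw [lam_smul_T, h.near_T₀_iff hd hP0]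
    rw [mul_zero, zero_add, pow_one]
    exact disc' h h0
  by_cases h1 : ‖nx P - 1‖ < 1
  · left
    refine ⟨1, ?_⟩
    rw [one_smul, h.near_T_iff hodd hd hP0]
    rw [mul_zero, zero_add, pow_one]
    exact disc' h h1
  by_cases h2 : ‖nx P + 1‖ < 1
  · left
    refine ⟨gi, ?_⟩
    rw [h.near_giT_iff hodd d hP0]
    rw [mul_zero, zero_add, pow_one]
    exact disc' h h2
  right
  push Not at h0 h1 h2
  have e0 : ‖nx P‖ = 1 := le_antisymm hx h0
  have e1 : ‖nx P - 1‖ = 1 := by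
    refine le_antisymm ((h.norm_sub_le _ _).trans ?_) h1
    rw [norm_one]; exact max_le hx le_rfl
  have e2 : ‖nx P + 1‖ = 1 := by
    refine le_antisymm ((h.ultra _ _).trans ?_) h2
    rw [norm_one]; exact max_le hx le_rfl
  refine ⟨hP0, e0, e1, e2, ?_⟩
  have hf : ‖ff (nx P)‖ = 1 := by
    have : ff (nx P) = nx P * (nx P - 1) * (nx P + 1) := by unfold ff; ring
    rw [this, norm_mul, norm_mul, e0, e1, e2]; norm_num
  have hs := congrArg norm (sq_ff_nx hd P)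
  rw [norm_pow, norm_mul, hf, mul_one] at hs
  have hne : yc P / (d : K) ≠ 0 := by
    intro hc
    rw [hc, norm_zero] at hs
    have : 0 < ‖(d : K)‖ := norm_pos_iff.2 hd
    rw [← hs] at this
    norm_num at this
  obtain ⟨m, hm⟩ := h.unif _ hne
  refine ⟨m, ?_⟩
  rw [← hs, hm, ← zpow_natCast, ← zpow_mul, mul_comm]
  rfl

theorem LocHyp.T_not_mem (h : LocHyp K π) (d : Kˣ) : T d.ne_zero ∉ nb π (d : K) 0 ∧
    T₀ d.ne_zero ∉ nb π (d : K) 0 ∧ gi • T d.ne_zero ∉ nb π (d : K) 0 := by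
  have hd := d.ne_zero
  refine ⟨?_, ?_, ?_⟩
  · rw [h.mem_nb_zero_iff hd]
    rintro (h1 | h1)
    · exact T_ne hd h1
    · rw [nx_T, norm_one] at h1
      exact lt_irrefl _ h1
  · rw [h.mem_nb_zero_iff hd]
    rintro (h1 | h1)
    · exact T₀_ne hd h1
    · rw [nx_T₀, norm_zero] at h1
      linarith
  · rw [h.mem_nb_zero_iff hd]
    rintro (h1 | h1)
    · exact gi_smul_ne d (T_ne hd) h1
    · rw [nx_gi_T, norm_neg, norm_one] at h1
      exact lt_irrefl _ h1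

end GWA
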